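import Pool.Agent.X83.NH.Final

/-! There are homogeneous non-Hausdorff surfaces in which the points not separated from any given
point form a circle, and others in which they form a line. -/

open Pool.Agent.X83.NH

namespace Pool.Agent.Results.MP_43aaf1_gt.CircleAndLine

/-- Positive answers to Q1 (circle) and Q2 (line). -/
theorem result :
    (∃ (X : Type) (_ : TopologicalSpace X), IsHNHManifold 2 X ∧
      ∀ z : X, Nonempty (NH z ≃ₜ Circle)) ∧
    (∃ (X : Type) (_ : TopologicalSpace X), IsHNHManifold 2 X ∧
      ∀ z : X, Nonempty (NH z ≃ₜ ℝ)) :=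
  ⟨circle_case, real_case⟩

end Pool.Agent.Results.MP_43aaf1_gt.CircleAndLine
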